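import Pool.Agent.Helper64.LN.GoalsC
import Pool.Agent.Helper67.Big.C4
import Pool.Agent.Helper90.BigC12

set_option autoImplicit false

/-! Project LN (MP_2b9d24_gt, phase 2): orientation preserving homeomorphisms form a monoid and
the property is local. -/

open Topology Filter Set

namespace Pool.Agent.Helper85.LN

open Pool.Agent.Helper64.LN Pool.Agent.Helper78.BigMap

theorem openPre {S : Type*} [TopologicalSpace S] (φ χ : OpenPartialHomeomorph S ℂ)
    (g : S ≃ₜ S) {x : S} (hx : x ∈ φ.source) (hg : g x ∈ χ.source) :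
    ∀ᶠ z in 𝓝 (φ x), z ∈ φ.target ∧ g (φ.symm z) ∈ χ.source := by
  have ho : IsOpen (φ.target ∩ φ.symm ⁻¹' (g ⁻¹' χ.source)) :=
    φ.isOpen_inter_preimage_symm (χ.open_source.preimage g.continuous)
  have hm : φ x ∈ φ.target ∩ φ.symm ⁻¹' (g ⁻¹' χ.source) := by
    refine ⟨φ.map_source hx, ?_⟩
    rw [mem_preimage, φ.left_inv hx]
    exact hg
  filter_upwards [ho.mem_nhds hm] with z hz
  exact hz

theorem contPre {S : Type*} [TopologicalSpace S] (φ χ : OpenPartialHomeomorph S ℂ)
    (g : S ≃ₜ S) {z : ℂ} (hz : z ∈ φ.target ∧ g (φ.symm z) ∈ χ.source) :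
    ContinuousAt (fun z => χ (g (φ.symm z))) z :=
  ContinuousAt.comp (g := χ) (χ.continuousAt hz.2)
    (g.continuous.continuousAt.comp (φ.continuousAt_symm hz.1))

/-- Goal OC. -/
theorem goalOC.{v} : GoalOC.{v} := by
  intro S _ _ O hO
  refine ⟨?_, ?_, ?_⟩
  · intro f g hf hg φ hφ ψ hψ x hx hfx
    rw [Homeomorph.mul_apply] at hfx
    obtain ⟨χ, hχ, hgx⟩ := hO.1 (g x)
    have p1 := hg φ hφ χ hχ x hx hgx
    have p2 := hf χ hχ ψ hψ (g x) hgx hfx
    have o1 := openPre φ χ g hx hgx
    have o2 := openPre χ ψ f hgx hfx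
    have v1 : χ (g (φ.symm (φ x))) = χ (g x) := by rw [φ.left_inv hx]
    have p3 : PosAt (fun z => (fun w => ψ (f (χ.symm w))) ((fun z => χ (g (φ.symm z))) z))
        (φ x) := by
      apply Pool.Agent.Helper90.Big.goalC1 (fun z => χ (g (φ.symm z)))
        (fun w => ψ (f (χ.symm w))) (φ x) p1 (contPre φ χ g o1.self_of_nhds)
      · rw [v1]
        exact p2
      · rw [v1]
        filter_upwards [o2] with w hw
        exact contPre χ ψ f hw
      · rw [v1]
        filter_upwards [o2] with w hw hww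
        have h0 := o2.self_of_nhds
        exact χ.symm.injOn hw.1 h0.1 (f.injective (ψ.injOn hw.2 h0.2 hww))
      · filter_upwards [o1] with z hz
        exact contPre φ χ g hz
    refine Pool.Agent.Helper67.Big.posAt_congr p3 ?_
    filter_upwards [o1] with z hz
    rw [χ.left_inv hz.2, Homeomorph.mul_apply]
  · intro φ hφ ψ hψ x hx hfx
    exact hO.2 φ hφ ψ hψ x ⟨hx, hfx⟩
  · intro g hg φ hφ ψ hψ x hx hgx
    obtain ⟨f, hf, hfg⟩ := hg x
    have hx' : f x ∈ ψ.source := by
      rw [← hfg.self_of_nhds]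
      exact hgx
    refine Pool.Agent.Helper67.Big.posAt_congr (hf φ hφ ψ hψ x hx hx') ?_
    have hc : Tendsto φ.symm (𝓝 (φ x)) (𝓝 x) := by
      have := φ.continuousAt_symm (φ.map_source hx)
      rw [ContinuousAt, φ.left_inv hx] at this
      exact this
    filter_upwards [hc.eventually hfg] with z hz
    rw [hz]

end Pool.Agent.Helper85.LN
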