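import Pool.Agent.Helper85.LN.Defs

/-! Basic lemmas of project LN. -/

namespace Pool.Agent.Helper85.LN

variable {Q X Z : Type*}

theorem iw_nil : iw ([] : List (S Q)) = [] := rfl

theorem iw_cons (s : S Q) (w : List (S Q)) : iw (s :: w) = iw w ++ [(s.1, !s.2)] := by
  simp [iw]

theorem iw_append (u v : List (S Q)) : iw (u ++ v) = iw v ++ iw u := by
  simp [iw]

theorem iw_iw (w : List (S Q)) : iw (iw w) = w := by
  simp [iw, List.map_reverse, Function.comp_def]

theorem iw_length (w : List (S Q)) : (iw w).length = w.length := by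
  simp [iw]

namespace WA

variable (W : WA Q Z)

theorem ltw_append (u v : List (S Q)) (z : Z) : W.ltw (u ++ v) z = W.ltw u (W.ltw v z) := by
  induction u with
  | nil => rfl
  | cons s u ih => simp [ltw, ih]

theorem scw_append (u v : List (S Q)) (z : Z) :
    W.scw (u ++ v) z = W.scw u (W.ltw v z) ++ W.scw v z := by
  induction u with
  | nil => rfl
  | cons s u ih => simp [scw, ih, ltw_append]

theorem lt_neg (s : S Q) (z : Z) : W.lt (s.1, !s.2) (W.lt s z) = z := by
  obtain ⟨q, b⟩ := s
  cases b <;> simp [lt]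

theorem lt_neg' (s : S Q) (z : Z) : W.lt s (W.lt (s.1, !s.2) z) = z := by
  obtain ⟨q, b⟩ := s
  cases b <;> simp [lt]

theorem sc_neg (s : S Q) (z : Z) : W.sc (s.1, !s.2) (W.lt s z) = iw (W.sc s z) := by
  obtain ⟨q, b⟩ := s
  cases b <;> simp [lt, sc, iw_iw]

theorem ltw_iw (w : List (S Q)) (z : Z) : W.ltw (iw w) (W.ltw w z) = z := by
  induction w generalizing z with
  | nil => rfl
  | cons s w ih =>
    rw [iw_cons, ltw_append]
    simp only [ltw]
    rw [lt_neg, ih]

theorem ltw_iw' (w : List (S Q)) (z : Z) : W.ltw w (W.ltw (iw w) z) = z := by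
  have := W.ltw_iw (iw w) z
  rwa [iw_iw] at this

theorem scw_iw (w : List (S Q)) (z : Z) : W.scw (iw w) (W.ltw w z) = iw (W.scw w z) := by
  induction w generalizing z with
  | nil => rfl
  | cons s w ih =>
    rw [iw_cons, scw_append]
    simp only [ltw, scw]
    rw [lt_neg, ih, sc_neg, iw_append, List.append_nil]

end WA

namespace Auto

variable (A : Auto Q X)

theorem perm_nil (q : Q) : A.perm q [] = [] := rfl

theorem perm_cons (q : Q) (a : X) (w : List X) :
    A.perm q (a :: w) = A.out q a :: A.perm (A.tr q a) w := rfl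

theorem permi_nil (q : Q) : (A.perm q)⁻¹ [] = [] := rfl

theorem permi_cons (q : Q) (b : X) (w : List X) :
    (A.perm q)⁻¹ (b :: w) = (A.out q).symm b :: (A.perm (A.tr q ((A.out q).symm b)))⁻¹ w := rfl

theorem ps_nil (s : S Q) : A.ps s [] = [] := by
  obtain ⟨q, b⟩ := s
  cases b
  · exact A.permi_nil q
  · exact A.perm_nil q

theorem val_nil : A.val [] = 1 := rfl

theorem val_cons (s : S Q) (w : List (S Q)) : A.val (s :: w) = A.ps s * A.val w := by
  simp [val]

theorem val_append (u v : List (S Q)) : A.val (u ++ v) = A.val u * A.val v := by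
  simp [val]

theorem ps_neg (s : S Q) : A.ps (s.1, !s.2) = (A.ps s)⁻¹ := by
  obtain ⟨q, b⟩ := s
  cases b <;> simp [ps]

theorem val_iw (w : List (S Q)) : A.val (iw w) = (A.val w)⁻¹ := by
  induction w with
  | nil => simp [iw, val_nil]
  | cons s w ih =>
    rw [iw_cons, val_append, ih, val_cons, val_cons, val_nil, mul_one, ps_neg, mul_inv_rev]

theorem val_apply_nil (w : List (S Q)) : A.val w [] = [] := by
  induction w with
  | nil => rfl
  | cons s w ih => rw [val_cons, Equiv.Perm.mul_apply, ih, ps_nil]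

theorem ps_apply_cons (s : S Q) (a : X) (u : List X) :
    A.ps s (a :: u) = A.toWA.lt s a :: A.val (A.toWA.sc s a) u := by
  obtain ⟨q, b⟩ := s
  cases b
  · simp [ps, WA.lt, WA.sc, toWA, permi_cons, iw, val]
  · simp [ps, WA.lt, WA.sc, toWA, perm_cons, val]

theorem val_apply_cons (w : List (S Q)) (a : X) (u : List X) :
    A.val w (a :: u) = A.toWA.ltw w a :: A.val (A.toWA.scw w a) u := by
  induction w with
  | nil => rfl
  | cons s w ih =>
    rw [val_cons, Equiv.Perm.mul_apply, ih, ps_apply_cons]
    simp only [WA.ltw, WA.scw, val_append, Equiv.Perm.mul_apply]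

theorem sc_length (s : S Q) (a : X) : (A.toWA.sc s a).length = 1 := by
  obtain ⟨q, b⟩ := s
  cases b <;> simp [WA.sc, toWA, iw]

theorem scw_length (w : List (S Q)) (a : X) : (A.toWA.scw w a).length = w.length := by
  induction w with
  | nil => rfl
  | cons s w ih =>
    simp only [WA.scw, List.length_append, List.length_cons, sc_length, ih]
    omega

theorem val_length (w : List (S Q)) (u : List X) : (A.val w u).length = u.length := by
  induction u generalizing w with
  | nil => rw [val_apply_nil]
  | cons a u ih => rw [val_apply_cons, List.length_cons, ih, List.length_cons]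

theorem ps_mem (s : S Q) : A.ps s ∈ A.G := by
  obtain ⟨q, b⟩ := s
  cases b
  · exact A.G.inv_mem (Subgroup.subset_closure ⟨q, rfl⟩)
  · exact Subgroup.subset_closure ⟨q, rfl⟩

theorem val_mem (w : List (S Q)) : A.val w ∈ A.G := by
  induction w with
  | nil => exact A.G.one_mem
  | cons s w ih =>
    rw [val_cons]
    exact A.G.mul_mem (A.ps_mem s) ih

theorem mem_G_iff (g : Equiv.Perm (List X)) : g ∈ A.G ↔ ∃ w, A.val w = g := by
  constructor
  · intro hg
    induction hg using Subgroup.closure_induction with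
    | mem x hx =>
      obtain ⟨q, rfl⟩ := hx
      exact ⟨[(q, true)], by simp [val, ps]⟩
    | one => exact ⟨[], rfl⟩
    | mul x y _ _ hx hy =>
      obtain ⟨u, rfl⟩ := hx
      obtain ⟨v, rfl⟩ := hy
      exact ⟨u ++ v, A.val_append u v⟩
    | inv x _ hx =>
      obtain ⟨u, rfl⟩ := hx
      exact ⟨iw u, A.val_iw u⟩
  · rintro ⟨w, rfl⟩
    exact A.val_mem w

/-- If a word fixes all letters and its sections have value one then its value is one. -/
theorem val_eq_one_of (w : List (S Q)) (h : ∀ a, A.toWA.ltw w a = a ∧ A.val (A.toWA.scw w a) = 1) :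
    A.val w = 1 := by
  ext1 u
  cases u with
  | nil => rw [val_apply_nil]; rfl
  | cons a u =>
    rw [val_apply_cons, (h a).1, (h a).2]
    rfl

theorem ltw_of_val_eq_one (w : List (S Q)) (h : A.val w = 1) (a : X) : A.toWA.ltw w a = a := by
  have h1 := A.val_apply_cons w a []
  rw [h] at h1
  exact (List.cons.inj h1).1.symm

theorem scw_of_val_eq_one (w : List (S Q)) (h : A.val w = 1) (a : X) :
    A.val (A.toWA.scw w a) = 1 := by
  ext1 u
  have h1 := A.val_apply_cons w a u
  rw [h] at h1
  exact (List.cons.inj h1).2.symm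

/-- One letter form of local nontriviality. -/
theorem LN_iff : A.LN ↔ ∀ (w : List (S Q)) (a : X), A.toWA.ltw w a = a →
    A.val (A.toWA.scw w a) = 1 → A.val w = 1 := by
  constructor
  · intro h w a h1 h2
    apply h _ (A.val_mem w) [a]
    intro u
    rw [List.singleton_append, val_apply_cons, h1, h2]
    rfl
  · intro h g hg u
    obtain ⟨w, rfl⟩ := (A.mem_G_iff g).1 hg
    clear hg
    induction u generalizing w with
    | nil =>
      intro hu
      ext1 v
      exact hu v
    | cons a u ih =>
      intro hu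
      have h0 := hu []
      rw [List.cons_append, val_apply_cons] at h0
      apply h w a (List.cons.inj h0).1
      apply ih
      intro v
      have h1 := hu v
      rw [List.cons_append, val_apply_cons] at h1
      exact (List.cons.inj h1).2

end Auto

/-! ### Equality of words -/

section Eqv

variable {R : List (List (S Q))}

theorem Eqv.refl (u : List (S Q)) : Eqv R u u := Relation.EqvGen.refl u

theorem Eqv.symm {u v : List (S Q)} (h : Eqv R u v) : Eqv R v u := Relation.EqvGen.symm _ _ h

theorem Eqv.trans {u v w : List (S Q)} (h : Eqv R u v) (h' : Eqv R v w) : Eqv R u w :=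
  Relation.EqvGen.trans _ _ _ h h'

theorem Eqv.step {u v : List (S Q)} (h : Stp R u v) : Eqv R u v := Relation.EqvGen.rel _ _ h

theorem Eqv.append_left (p : List (S Q)) {u v : List (S Q)} (h : Eqv R u v) :
    Eqv R (p ++ u) (p ++ v) := by
  induction h with
  | rel x y h =>
    obtain ⟨p', r, s, hr, rfl, rfl⟩ := h
    exact Eqv.step ⟨p ++ p', r, s, hr, by simp, by simp⟩
  | refl x => exact Eqv.refl _
  | symm x y _ ih => exact ih.symm
  | trans x y z _ _ ih1 ih2 => exact ih1.trans ih2

theorem Eqv.append_right (p : List (S Q)) {u v : List (S Q)} (h : Eqv R u v) :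
    Eqv R (u ++ p) (v ++ p) := by
  induction h with
  | rel x y h =>
    obtain ⟨p', r, s, hr, rfl, rfl⟩ := h
    exact Eqv.step ⟨p', r, s ++ p, hr, by simp, by simp⟩
  | refl x => exact Eqv.refl _
  | symm x y _ ih => exact ih.symm
  | trans x y z _ _ ih1 ih2 => exact ih1.trans ih2

theorem Eqv.append {u v u' v' : List (S Q)} (h : Eqv R u v) (h' : Eqv R u' v') :
    Eqv R (u ++ u') (v ++ v') :=
  (h.append_right u').trans (h'.append_left v)

theorem Eqv.rel {r : List (S Q)} (h : r ∈ R) : Eqv R r [] :=
  (Eqv.step ⟨[], r, [], Or.inl h, rfl, by simp⟩ : Eqv R [] r).symm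

theorem Eqv.triv (q : Q) (b : Bool) : Eqv R [(q, b), (q, !b)] [] :=
  (Eqv.step ⟨[], _, [], Or.inr ⟨q, b, rfl⟩, rfl, by simp⟩ : Eqv R [] [(q, b), (q, !b)]).symm

theorem Eqv.mul_iw (w : List (S Q)) : Eqv R (w ++ iw w) [] := by
  induction w with
  | nil => exact Eqv.refl _
  | cons s w ih =>
    rw [iw_cons]
    have h1 : Eqv R ([s] ++ ((w ++ iw w) ++ [(s.1, !s.2)])) ([s] ++ ([] ++ [(s.1, !s.2)])) :=
      (ih.append_right _).append_left _
    have h2 : Eqv R ([s] ++ ([] ++ [(s.1, !s.2)])) [] := Eqv.triv s.1 s.2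
    have h3 := h1.trans h2
    simpa using h3

theorem Eqv.iw_mul (w : List (S Q)) : Eqv R (iw w ++ w) [] := by
  have := Eqv.mul_iw (R := R) (iw w)
  rwa [iw_iw] at this

theorem Eqv.iw {u v : List (S Q)} (h : Eqv R u v) : Eqv R (iw u) (iw v) := by
  -- `iw u ~ iw u v iw v ~ iw u u iw v ~ iw v`
  have h1 : Eqv R (LN.iw u ++ []) (LN.iw u ++ (v ++ LN.iw v)) :=
    (Eqv.mul_iw v).symm.append_left _
  have h2 : Eqv R (LN.iw u ++ (v ++ LN.iw v)) (LN.iw u ++ (u ++ LN.iw v)) :=
    (h.symm.append_right _).append_left _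
  have h3 : Eqv R ((LN.iw u ++ u) ++ LN.iw v) ([] ++ LN.iw v) := (Eqv.iw_mul u).append_right _
  rw [List.append_assoc] at h3
  have := (h1.trans h2).trans h3
  simpa using this

/-- Left cancellation. -/
theorem Eqv.cancel {p u v : List (S Q)} (h : Eqv R (p ++ u) (p ++ v)) : Eqv R u v := by
  have h1 := h.append_left (LN.iw p)
  rw [← List.append_assoc, ← List.append_assoc] at h1
  have h2 : ∀ x, Eqv R ((LN.iw p ++ p) ++ x) x := fun x => by
    simpa using (Eqv.iw_mul (R := R) p).append_right x
  exact ((h2 u).symm.trans h1).trans (h2 v)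

end Eqv

theorem Resp.eqv {R : List (List (S Q))} {W : WA Q Z} (hR : Resp R W) {u v : List (S Q)}
    (h : Eqv R u v) (z : Z) : W.ltw u z = W.ltw v z ∧ Eqv R (W.scw u z) (W.scw v z) := by
  induction h generalizing z with
  | rel x y h =>
    obtain ⟨p, r, s, hr, rfl, rfl⟩ := h
    have hr' : ∀ z, W.ltw r z = z ∧ Eqv R (W.scw r z) [] := by
      intro z
      rcases hr with hr | ⟨q, b, rfl⟩
      · exact hR r hr z
      · have h1 : W.ltw [(q, b), (q, !b)] z = z := by
          have := W.lt_neg' (q, b) z
          simpa [WA.ltw] using this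
        refine ⟨h1, ?_⟩
        have h2 := W.sc_neg (q, !b) z
        simp only [Bool.not_not] at h2
        have h3 : W.scw [(q, b), (q, !b)] z = iw (W.sc (q, !b) z) ++ W.sc (q, !b) z := by
          simp only [WA.scw, WA.ltw, List.append_nil]
          rw [h2]
        rw [h3]
        exact Eqv.iw_mul _
    constructor
    · rw [W.ltw_append, W.ltw_append, W.ltw_append, (hr' _).1]
    · rw [W.scw_append, W.scw_append, W.scw_append, W.ltw_append, (hr' _).1]
      have h4 := ((hr' (W.ltw s z)).2.symm.append_right (W.scw s z)).append_left (W.scw p (W.ltw s z))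
      simpa using h4
  | refl x => exact ⟨rfl, Eqv.refl _⟩
  | symm x y _ ih => exact ⟨(ih z).1.symm, (ih z).2.symm⟩
  | trans x y w _ _ ih1 ih2 => exact ⟨(ih1 z).1.trans (ih2 z).1, (ih1 z).2.trans (ih2 z).2⟩

/-- Words which are equal modulo the relators of a certificate act in the same way. -/
theorem Resp.val {R : List (List (S Q))} {A : Auto Q X} (hR : Resp R A.toWA) {u v : List (S Q)}
    (h : Eqv R u v) : A.val u = A.val v := by
  ext1 w
  induction w generalizing u v with
  | nil => rw [A.val_apply_nil, A.val_apply_nil]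
  | cons a w ih =>
    rw [A.val_apply_cons, A.val_apply_cons, (hR.eqv h a).1, ih (hR.eqv h a).2]

end Pool.Agent.Helper85.LN
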