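import Pool.Agent.Helper85.LN.Defs

/-!
# Code level of project LN (MP_d0c558_al)

Automata over `Fin d` with `m` states are coded as in the problem: `(d, table of tr, table of out)`.
Words of signed states are coded as lists of pairs (number of the state, sign).
-/

namespace Pool.Agent.Helper85.LN

/-- Codes of automata. -/
abbrev AC := ℕ × List (List ℕ) × List (List ℕ)

/-- The code of an automaton: alphabet size, table of transitions, table of outputs. -/
def enc {m d : ℕ} (A : Auto (Fin m) (Fin d)) : AC :=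
  (d, List.ofFn fun q => List.ofFn fun a => (A.tr q a : ℕ),
    List.ofFn fun q => List.ofFn fun a => (A.out q a : ℕ))

/-- Codes of words. -/
abbrev WC := List (ℕ × Bool)

/-- Tables: outputs and sections (words). -/
abbrev Tab := List (List ℕ) × List (List WC)

/-- Formal inverse. -/
def iwC (w : WC) : WC := (w.map fun s => (s.1, !s.2)).reverse

/-- Action of a signed state on a letter. -/
def ltC (T : Tab) (s : ℕ × Bool) (z : ℕ) : ℕ :=
  cond s.2 ((T.1.getD s.1 []).getD z 0) ((T.1.getD s.1 []).idxOf z)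

/-- Section of a signed state at a letter. -/
def scC (T : Tab) (s : ℕ × Bool) (z : ℕ) : WC :=
  cond s.2 ((T.2.getD s.1 []).getD z [])
    (iwC ((T.2.getD s.1 []).getD ((T.1.getD s.1 []).idxOf z) []))

/-- Letter and section of a word at a letter. -/
def runC (T : Tab) (w : WC) (z : ℕ) : ℕ × WC :=
  w.foldr (fun s p => (ltC T s p.1, scC T s p.1 ++ p.2)) (z, [])

/-- Image and section of a word at a list of letters. -/
def actC (T : Tab) (w : WC) (u : List ℕ) : List ℕ × WC :=
  u.foldl (fun p a => (p.1 ++ [(runC T p.2 a).1], (runC T p.2 a).2)) ([], w)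

/-- The table of a coded automaton. -/
def tabA (x : AC) : Tab := (x.2.2, x.2.1.map fun row => row.map fun s => [(s, true)])

/-- All entries are numbers of states. -/
def OkC (m : ℕ) (w : WC) : Prop := ∀ s ∈ w, s.1 < m

/-- Elementary steps. -/
def StpC (m : ℕ) (R : List WC) (u v : WC) : Prop :=
  ∃ i < u.length + 1, (∃ r ∈ R, v = u.take i ++ (r ++ u.drop i)) ∨
    ∃ q < m, v = u.take i ++ ([(q, true), (q, false)] ++ u.drop i) ∨
      v = u.take i ++ ([(q, false), (q, true)] ++ u.drop i)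

/-- A chain of elementary steps from `u` to `v`. -/
def ChainC (m : ℕ) (R : List WC) (c : List WC) (u v : WC) : Prop :=
  c ≠ [] ∧ c.getD 0 [] = u ∧ c.getD (c.length - 1) [] = v ∧ (∀ w ∈ c, OkC m w) ∧
    ∀ i < c.length - 1, StpC m R (c.getD i []) (c.getD (i + 1) []) ∨
      StpC m R (c.getD (i + 1) []) (c.getD i [])

/-- Some chain of the pool `K` goes from `u` to `v`. -/
def EqvC (m : ℕ) (R : List WC) (K : List (List WC)) (u v : WC) : Prop :=
  ∃ c ∈ K, ChainC m R c u v

/-- Codes of certificates `(R, k, B, t, l, K)`. -/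
abbrev CC := List WC × ℕ × Tab × List ℕ × List WC × List (List WC)

/-- The transition table. -/
def trC (x : AC) (q a : ℕ) : ℕ := (x.2.1.getD q []).getD a 0

/-- The output table. -/
def outC (x : AC) (q a : ℕ) : ℕ := (x.2.2.getD q []).getD a 0

/-- The shape of a certificate. -/
def Chk1 (x : AC) (R : List WC) (k : ℕ) (B : Tab) (t : List ℕ) (l : List WC) : Prop :=
  (∀ r ∈ R, OkC x.2.1.length r) ∧
  (∀ q < x.2.1.length, (B.1.getD q []).length = k ∧ (∀ z < k, z ∈ B.1.getD q []) ∧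
    ∀ z < k, OkC x.2.1.length ((B.2.getD q []).getD z [])) ∧
  ∀ a < x.1, t.getD a 0 < k ∧ OkC x.2.1.length (l.getD a [])

/-- The relators act trivially. -/
def Chk2 (m : ℕ) (T : Tab) (k : ℕ) (R : List WC) (K : List (List WC)) : Prop :=
  ∀ r ∈ R, ∀ z < k, (runC T r z).1 = z ∧ EqvC m R K (runC T r z).2 []

/-- The condition on the points. -/
def Chk3 (x : AC) (R : List WC) (B : Tab) (t : List ℕ) (l : List WC) (K : List (List WC)) : Prop :=
  ∀ q < x.2.1.length, ∀ a < x.1,
    ltC B (trC x q a, true) (t.getD a 0) = t.getD (outC x q a) 0 ∧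
    EqvC x.2.1.length R K (scC B (trC x q a, true) (t.getD a 0) ++ l.getD a [])
      (l.getD (outC x q a) [] ++ [(q, true)])

/-- The check of a certificate. -/
def ChkC (x : AC) (c : CC) : Prop :=
  Chk1 x c.1 c.2.1 c.2.2.1 c.2.2.2.1 c.2.2.2.2.1 ∧
  Chk2 x.2.1.length (tabA x) x.1 c.1 c.2.2.2.2.2 ∧
  Chk2 x.2.1.length c.2.2.1 c.2.1 c.1 c.2.2.2.2.2 ∧
  Chk3 x c.1 c.2.2.1 c.2.2.2.1 c.2.2.2.2.1 c.2.2.2.2.2

/-- Codes of violations `(w, u, v, L)`. -/
abbrev VC := WC × List ℕ × List ℕ × List WC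

/-- The check of a violation. -/
def VioC (x : AC) (c : VC) : Prop :=
  (OkC x.2.1.length c.1 ∧ (∀ a ∈ c.2.1, a < x.1) ∧ (∀ a ∈ c.2.2.1, a < x.1) ∧
    ∀ s ∈ c.2.2.2, OkC x.2.1.length s) ∧
  (actC (tabA x) c.1 c.2.1).1 = c.2.1 ∧ (actC (tabA x) c.1 c.2.1).2 ∈ c.2.2.2 ∧
  (∀ s ∈ c.2.2.2, ∀ a < x.1, (runC (tabA x) s a).1 = a ∧ (runC (tabA x) s a).2 ∈ c.2.2.2) ∧
  (actC (tabA x) c.1 c.2.2.1).1 ≠ c.2.2.1

/-- The code of a word. -/
def codeW {m : ℕ} (w : List (S (Fin m))) : WC := w.map fun s => ((s.1 : ℕ), s.2)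

/-- The table `T` represents `W`. -/
def Reps {m k : ℕ} (T : Tab) (W : WA (Fin m) (Fin k)) : Prop :=
  (∀ q : Fin m, T.1.getD q [] = List.ofFn fun z => (W.out q z : ℕ)) ∧
  ∀ (q : Fin m) (z : Fin k), (T.2.getD q []).getD z [] = codeW (W.sec1 q z)

/-- Section of a word at a list of letters. -/
def secw {Q X : Type*} (A : Auto Q X) (w : List (S Q)) (u : List X) : List (S Q) :=
  u.foldl (fun p a => A.toWA.scw p a) w

/-- A finite violation of local nontriviality. -/
def Vio {Q X : Type*} (A : Auto Q X) : Prop :=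
  ∃ (w : List (S Q)) (u v : List X) (L : List (List (S Q))),
    A.val w u = u ∧ secw A w u ∈ L ∧
    (∀ s ∈ L, ∀ a, A.toWA.ltw s a = a ∧ A.toWA.scw s a ∈ L) ∧ A.val w v ≠ v

/-- Bireversible automata. -/
def BiRev {Q X : Type*} (A : Auto Q X) : Prop :=
  (∀ a, Function.Injective fun q => A.tr q a) ∧
  ∀ b, Function.Injective fun q => A.tr q ((A.out q).symm b)

end Pool.Agent.Helper85.LN
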