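import Mathlib
import Pool.Agent.Helper5.GapDefs

/-!
# Local nontriviality of automaton groups (MP_d0c558_al), definitions

`Auto Q X`: finite invertible automata with state set `Q` and alphabet `X`; `perm A q` = the action of
the state `q` on words; `G A` = the automaton group; `LN A` = local nontriviality.
`WA Q Z` = the same with words (of signed states) instead of states as sections.
-/

namespace Pool.Agent.Helper85.LN

/-- A signed state. -/
abbrev S (Q : Type*) := Q × Bool

/-- An invertible automaton: transition map and output permutations. -/
structure Auto (Q X : Type*) where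
  tr : Q → X → Q
  out : Q → Equiv.Perm X

namespace Auto

variable {Q X : Type*} (A : Auto Q X)

/-- Action of a state on a word. -/
def act : Q → List X → List X
  | _, [] => []
  | q, a :: w => A.out q a :: act (A.tr q a) w

/-- Inverse action of a state. -/
def inv : Q → List X → List X
  | _, [] => []
  | q, b :: w => (A.out q).symm b :: inv (A.tr q ((A.out q).symm b)) w

theorem inv_act (q : Q) (w : List X) : A.inv q (A.act q w) = w := by
  induction w generalizing q with
  | nil => rfl
  | cons a w ih => simp [act, inv, ih]

theorem act_inv (q : Q) (w : List X) : A.act q (A.inv q w) = w := by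
  induction w generalizing q with
  | nil => rfl
  | cons a w ih => simp [act, inv, ih]

/-- The automorphism of the tree of words defined by a state. -/
def perm (q : Q) : Equiv.Perm (List X) :=
  ⟨A.act q, A.inv q, A.inv_act q, A.act_inv q⟩

/-- The automaton group. -/
def G : Subgroup (Equiv.Perm (List X)) := Subgroup.closure (Set.range A.perm)

/-- Local nontriviality. -/
def LN : Prop :=
  ∀ g ∈ A.G, ∀ u : List X, (∀ w, g (u ++ w) = u ++ w) → g = 1

/-- The state reached from `q` after reading `u`. -/
def run (q : Q) (u : List X) : Q := u.foldl A.tr q

end Auto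

/-- An automaton whose sections are words in signed states. -/
structure WA (Q Z : Type*) where
  out : Q → Equiv.Perm Z
  sec1 : Q → Z → List (S Q)

/-- Formal inverse of a word. -/
def iw {Q : Type*} (w : List (S Q)) : List (S Q) := (w.map fun s => (s.1, !s.2)).reverse

namespace WA

variable {Q Z : Type*} (W : WA Q Z)

/-- Action of a signed state on a letter. -/
def lt (s : S Q) (z : Z) : Z := cond s.2 (W.out s.1 z) ((W.out s.1).symm z)

/-- Section of a signed state at a letter. -/
def sc (s : S Q) (z : Z) : List (S Q) :=
  cond s.2 (W.sec1 s.1 z) (iw (W.sec1 s.1 ((W.out s.1).symm z)))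

/-- Action of a word of signed states on a letter (the last entry acts first). -/
def ltw : List (S Q) → Z → Z
  | [], z => z
  | s :: w, z => W.lt s (ltw w z)

/-- Section of a word of signed states at a letter. -/
def scw : List (S Q) → Z → List (S Q)
  | [], _ => []
  | s :: w, z => W.sc s (W.ltw w z) ++ scw w z

end WA

namespace Auto

variable {Q X : Type*} (A : Auto Q X)

/-- An automaton as an automaton with words as sections. -/
def toWA : WA Q X := ⟨A.out, fun q a => [(A.tr q a, true)]⟩

/-- The tree automorphism of a signed state. -/
def ps (s : S Q) : Equiv.Perm (List X) := cond s.2 (A.perm s.1) (A.perm s.1)⁻¹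

/-- The tree automorphism of a word of signed states. -/
def val (w : List (S Q)) : Equiv.Perm (List X) := (w.map A.ps).prod

end Auto

/-- Elementary step: insertion of a relator or of a trivial relator `q q⁻¹`, `q⁻¹ q`. -/
def Stp {Q : Type*} (R : List (List (S Q))) (u v : List (S Q)) : Prop :=
  ∃ p r s : List (S Q), (r ∈ R ∨ ∃ q b, r = [(q, b), (q, !b)]) ∧ u = p ++ s ∧ v = p ++ (r ++ s)

/-- Equality of words in the group with generators `Q` and relators `R`. -/
def Eqv {Q : Type*} (R : List (List (S Q))) (u v : List (S Q)) : Prop := Relation.EqvGen (Stp R) u v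

/-- All relators act trivially on the letters of `W` and their sections are consequences of `R`. -/
def Resp {Q Z : Type*} (R : List (List (S Q))) (W : WA Q Z) : Prop :=
  ∀ r ∈ R, ∀ z : Z, W.ltw r z = z ∧ Eqv R (W.scw r z) []

/-- A finite certificate of local nontriviality: a finitely presented group `P = ⟨Q | R⟩` covering the
automaton group, to which the sections lift (`Resp R A.toWA`), and a free right `P`-set with `k` orbits and
with a commuting left action of `P` (`B`, `Resp R B`), with points `(t a, l a)` such that
`(section of q at a) • (point of a) = (point of q a) • q`. -/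
def Cert {Q X : Type*} (A : Auto Q X) : Prop :=
  ∃ (R : List (List (S Q))) (k : ℕ) (B : WA Q (Fin k)) (t : X → Fin k) (l : X → List (S Q)),
    Resp R A.toWA ∧ Resp R B ∧
    ∀ (q : Q) (a : X), B.lt (A.tr q a, true) (t a) = t (A.out q a) ∧
      Eqv R (B.sc (A.tr q a, true) (t a) ++ l a) (l (A.out q a) ++ [(q, true)])

/-! ### Conditions under which the algorithm stops -/

/-- The sections at the letter `a` of the elements of the group fixing `a` form a subgroup of finite index
of the group. -/
def SecFin {Q X : Type*} (A : Auto Q X) (a : X) : Prop :=
  ∃ E : Finset (Equiv.Perm (List X)), ∀ g ∈ A.G, ∃ e ∈ E, e ∈ A.G ∧ ∃ h ∈ A.G,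
    ∀ w, h (a :: w) = a :: (e⁻¹ * g) w

/-- Polynomial growth of the subgroup generated by a set. -/
def PolyG {H : Type*} [Group H] (X : Set H) : Prop :=
  ∃ C D : ℕ, ∀ n : ℕ, Helper5.Gap.growth X n ≤ C * (n + 1) ^ D

/-- There is a set `T` of states, closed under the transitions, which can be reached from every state and
which generates a group of polynomial growth. -/
def Reach {Q X : Type*} (A : Auto Q X) : Prop :=
  ∃ T : Set Q, (∀ q ∈ T, ∀ a, A.tr q a ∈ T) ∧ (∀ q, ∃ u, A.run q u ∈ T) ∧ PolyG (A.perm '' T)

/-- The section of a tree automorphism at a word. -/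
def sct {X : Type*} (g : List X → List X) (u : List X) : List X → List X :=
  fun w => (g (u ++ w)).drop u.length

/-- The automaton group is contracting. -/
def Contr {Q X : Type*} (A : Auto Q X) : Prop :=
  ∃ N : Finset (List X → List X), ∀ g ∈ A.G, ∃ k : ℕ, ∀ u : List X, k ≤ u.length → sct g u ∈ N

end Pool.Agent.Helper85.LN
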