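import Pool.Agent.Helper85.LN.Final
import Pool.Agent.Helper2.LN.FIDX
import Pool.Agent.Helper31.LN.CERTA
import Pool.Agent.Helper32.LN.GROWN
import Pool.Agent.Helper40.LN.CERTG
import Pool.Agent.Helper42.LN.ENCC
import Pool.Agent.Helper49.LN.ENCV
import Pool.Agent.Helper5.LN.PVIO
import Pool.Agent.Helper55.LN.GT2
import Pool.Agent.Helper56.LN.ENC1
import Pool.Agent.Helper59.LN.GROM
import Pool.Agent.Helper61.LN.PCHK
import Pool.Agent.Helper61.LN.VNFP
import Pool.Agent.Helper69.LN.BIREV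
import Pool.Agent.Helper69.LN.VIOS
import Pool.Agent.Helper79.LN.MEM2
import Pool.Agent.Helper8.LN.MEM1
import Pool.Agent.Helper89.LN.ENC0
import Pool.Agent.Helper89.LN.PRES
import Pool.Agent.Helper90.LN.GT1
import Pool.Agent.Helper90.LN.RFIND
import Pool.Agent.Helper90.LN.SND

/-! The results of project LN. -/

namespace Pool.Agent.Helper85.LN

theorem res1 : Res1 :=
  assemble1 Helper90.LN.snd Helper69.LN.vios Helper89.LN.pres Helper40.LN.certg Helper31.LN.certa
    Helper69.LN.birev Helper90.LN.gt1 Helper55.LN.gt2 Helper32.LN.GROWN.grown Helper2.LN.fidx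
    Helper59.LN.grom Helper61.LN.vnfp Helper61.LN.pchk Helper5.LN.pvio Helper90.LN.rfind
    Helper89.LN.enc0 Helper56.LN.enc1 Helper42.LN.encc Helper49.LN.encv

theorem res2 : Res2 := assemble2 Helper8.LN.mem1 Helper79.LN.mem2

end Pool.Agent.Helper85.LN
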