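import Pool.Agent.Helper64.LN.GoalsC

set_option autoImplicit false

/-! Project LN (MP_2b9d24_gt, phase 2): extension of homeomorphisms up to infinity. -/

open Topology Filter Set

namespace Pool.Agent.Helper85.LN

open Pool.Agent.Helper64.LN

theorem frontierX {Y : Type*} [TopologicalSpace Y] {t u : Set Y} (ht : IsPreconnected t)
    (h1 : (t ∩ u).Nonempty) (h2 : (t ∩ uᶜ).Nonempty) : (t ∩ frontier u).Nonempty := by
  by_contra hcon
  have hn : ∀ x ∈ t, x ∈ closure u → x ∈ interior u := by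
    intro x hx hxc
    by_contra hxi
    exact hcon ⟨x, hx, hxc, hxi⟩
  obtain ⟨a, ha, hau⟩ := h1
  obtain ⟨b, hb, hbu⟩ := h2
  obtain ⟨z, -, hz1, hz2⟩ := ht (interior u) (closure u)ᶜ isOpen_interior
    isClosed_closure.isOpen_compl (fun x hx => by
      by_cases hxc : x ∈ closure u
      · exact Or.inl (hn x hx hxc)
      · exact Or.inr hxc) ⟨a, ha, hn a ha (subset_closure hau)⟩
    ⟨b, hb, fun hbc => hbu (interior_subset (hn b hb hbc))⟩
  exact hz2 (interior_subset_closure hz1)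

/-- Existence of the limits at the missing points. -/
theorem limEx {S Y : Type*} [TopologicalSpace S] [TopologicalSpace Y] [CompactSpace Y]
    [T2Space Y] (ι : S → Y) (hι : IsOpenEmbedding ι)
    (ha : ∀ y, y ∉ range ι → ∀ U ∈ 𝓝 y, ∃ V ∈ 𝓝 y, V ⊆ U ∧ frontier V ⊆ range ι)
    (hb : ∀ y, y ∉ range ι → ∀ U ∈ 𝓝 y, ∃ V ∈ 𝓝 y, V ⊆ U ∧ IsConnected (ι ⁻¹' V))
    (f : S ≃ₜ S) (y : Y) : ∃ c, Tendsto (fun s => ι (f s)) (comap ι (𝓝 y)) (𝓝 c) := by
  by_cases hy : y ∈ range ι
  · obtain ⟨s, rfl⟩ := hy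
    refine ⟨ι (f s), ?_⟩
    rw [← hι.isInducing.nhds_eq_comap]
    exact ((hι.continuous.comp f.continuous).tendsto s)
  · have hne : (comap ι (𝓝 y)).NeBot := by
      rw [comap_neBot_iff]
      intro t ht
      obtain ⟨V, -, hVt, hV⟩ := hb y hy t ht
      obtain ⟨s, hs⟩ := hV.nonempty
      exact ⟨s, hVt hs⟩
    have hcomp : ∀ K : Set S, IsCompact K → (ι '' (f ⁻¹' K))ᶜ ∈ 𝓝 y := by
      intro K hK
      have h1 : IsCompact (f ⁻¹' K) := f.isCompact_preimage.2 hK
      have h2 : IsClosed (ι '' (f ⁻¹' K)) := (h1.image hι.continuous).isClosed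
      refine h2.isOpen_compl.mem_nhds ?_
      rintro ⟨s, -, rfl⟩
      exact hy ⟨s, rfl⟩
    obtain ⟨c, -, hc⟩ := isCompact_univ (X := Y) (f := map (fun s => ι (f s)) (comap ι (𝓝 y)))
      (by simp)
    have hcc : ∀ A ∈ 𝓝 c, ∀ W ∈ 𝓝 y, ∃ s, ι s ∈ W ∧ ι (f s) ∈ A := by
      intro A hA W hW
      have h1 : (fun s => ι (f s)) '' (ι ⁻¹' W) ∈
          map (fun s => ι (f s)) (comap ι (𝓝 y)) := image_mem_map (preimage_mem_comap hW)
      obtain ⟨z, hz1, ⟨s, hs, rfl⟩⟩ := clusterPt_iff_nonempty.1 hc hA h1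
      exact ⟨s, hs, hz1⟩
    have hcr : c ∉ range ι := by
      rintro ⟨s, rfl⟩
      have : LocallyCompactSpace S := hι.locallyCompactSpace
      obtain ⟨Q, hQ, hQs⟩ := exists_compact_mem_nhds s
      obtain ⟨s', h1, s'', h2, h3⟩ := hcc (ι '' Q) (hι.isOpenMap.image_mem_nhds hQs) _ (hcomp Q hQ)
      refine h1 ⟨s', ?_, rfl⟩
      rw [mem_preimage, ← hι.injective h3]
      exact h2
    refine ⟨c, fun U hU => ?_⟩
    obtain ⟨V, hV, hVU, hVf⟩ := ha c hcr U hU
    have hK : IsCompact (ι ⁻¹' frontier V) :=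
      hι.isInducing.isCompact_preimage' (isClosed_frontier.isCompact) hVf
    obtain ⟨W, hW, hWs, hWc⟩ := hb y hy _ (hcomp _ hK)
    rw [mem_map]
    refine mem_of_superset (preimage_mem_comap hW) ?_
    intro s hs
    rw [mem_preimage]
    refine hVU ?_
    have hpre : IsPreconnected ((fun s => ι (f s)) '' (ι ⁻¹' W)) :=
      hWc.isPreconnected.image _ (hι.continuous.comp f.continuous).continuousOn
    by_contra hcon
    obtain ⟨s', hs1, hs2⟩ := hcc V hV W hW
    obtain ⟨z, ⟨s'', hs3, rfl⟩, hz⟩ := frontierX hpre ⟨_, ⟨s', hs1, rfl⟩, hs2⟩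
      ⟨_, ⟨s, hs, rfl⟩, hcon⟩
    exact hWs hs3 ⟨s'', hz, rfl⟩

/-- Extension of homeomorphisms. -/
theorem extH {S Y : Type*} [TopologicalSpace S] [TopologicalSpace Y] [CompactSpace Y]
    [T2Space Y] (ι : S → Y) (hι : IsOpenEmbedding ι)
    (ha : ∀ y, y ∉ range ι → ∀ U ∈ 𝓝 y, ∃ V ∈ 𝓝 y, V ⊆ U ∧ frontier V ⊆ range ι)
    (hb : ∀ y, y ∉ range ι → ∀ U ∈ 𝓝 y, ∃ V ∈ 𝓝 y, V ⊆ U ∧ IsConnected (ι ⁻¹' V))
    (f : S ≃ₜ S) : ∃ F : Y ≃ₜ Y, ∀ s, F (ι s) = ι (f s) := by
  have hd : DenseRange ι := by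
    intro y
    rw [mem_closure_iff_nhds]
    intro t ht
    by_cases hy : y ∈ range ι
    · exact ⟨y, mem_of_mem_nhds ht, hy⟩
    · obtain ⟨V, -, hVt, hV⟩ := hb y hy t ht
      obtain ⟨s, hs⟩ := hV.nonempty
      exact ⟨ι s, hVt hs, ⟨s, rfl⟩⟩
  have di : IsDenseInducing ι := ⟨hι.isInducing, hd⟩
  have key : ∀ f : S ≃ₜ S, ∃ F : Y → Y, Continuous F ∧ ∀ s, F (ι s) = ι (f s) := by
    intro f
    refine ⟨di.extend (fun s => ι (f s)), di.continuous_extend (limEx ι hι ha hb f), ?_⟩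
    intro s
    exact di.extend_eq (hι.continuous.comp f.continuous) s
  obtain ⟨F, hF, hFs⟩ := key f
  obtain ⟨G, hG, hGs⟩ := key f.symm
  have h1 : G ∘ F = id := by
    refine hd.equalizer (hG.comp hF) continuous_id ?_
    funext s
    simp [hFs, hGs]
  have h2 : F ∘ G = id := by
    refine hd.equalizer (hF.comp hG) continuous_id ?_
    funext s
    simp [hFs, hGs]
  exact ⟨⟨⟨F, G, fun y => congrFun h1 y, fun y => congrFun h2 y⟩, hF, hG⟩, hFs⟩

/-- Goal EX2. -/
theorem goalEX2.{v} (h1 : GoalEX1.{v}) : GoalEX2.{v} := by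
  intro X _ _ _ _ E hE f
  classical
  set ι : Sb E → OnePoint X := fun s => ((s : X) : OnePoint X) with hιdef
  have hι : IsOpenEmbedding ι :=
    OnePoint.isOpenEmbedding_coe.comp hE.closed.isOpen_compl.isOpenEmbedding_subtypeVal
  have hinj : ∀ x y : X, ((x : X) : OnePoint X) = y → x = y := fun x y h =>
    OnePoint.coe_injective h
  have hrc : ∀ x : X, ((x : X) : OnePoint X) ∈ range ι ↔ x ∉ E := by
    intro x
    constructor
    · rintro ⟨s, hs⟩
      rw [← hinj _ _ hs]
      exact s.2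
    · intro hx
      exact ⟨⟨x, hx⟩, rfl⟩
  have hri : OnePoint.infty ∉ range ι := by
    rintro ⟨s, hs⟩
    exact OnePoint.coe_ne_infty _ hs
  have hclc : ∀ K : Set X, IsCompact K → IsClosed ((fun x : X => (x : OnePoint X)) '' K) :=
    fun K hK => (hK.image OnePoint.continuous_coe).isClosed
  have hnhi : ∀ U ∈ 𝓝 (OnePoint.infty : OnePoint X), ∃ L : Set X, IsCompact L ∧
      ∀ x, x ∉ L → (x : OnePoint X) ∈ U := by
    intro U hU
    obtain ⟨W, hWU, hWo, hW⟩ := mem_nhds_iff.1 hU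
    refine ⟨((fun x : X => (x : OnePoint X)) ⁻¹' W)ᶜ, ((OnePoint.isOpen_def.1 hWo).1 hW), ?_⟩
    intro x hx
    rw [mem_compl_iff, not_not] at hx
    exact hWU hx
  have ha : ∀ y, y ∉ range ι → ∀ U ∈ 𝓝 y, ∃ V ∈ 𝓝 y, V ⊆ U ∧ frontier V ⊆ range ι := by
    intro y hy U hU
    induction y using OnePoint.rec with
    | infty =>
      obtain ⟨L, hL, hLU⟩ := hnhi U hU
      choose V hVo hxV _ hVc hVd using
        fun x : X => h1 X E hE.closed hE.td x univ univ_mem
      obtain ⟨t, ht⟩ := hL.elim_finite_subcover V hVo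
        (fun x _ => mem_iUnion.2 ⟨x, hxV x⟩)
      set M : Set X := ⋃ i ∈ t, closure (V i) with hM
      have hMc : IsCompact M := t.isCompact_biUnion fun i _ => hVc i
      refine ⟨((fun x : X => (x : OnePoint X)) '' M)ᶜ,
        (hclc M hMc).isOpen_compl.mem_nhds ?_, ?_, ?_⟩
      · rintro ⟨x, -, hx⟩
        exact OnePoint.coe_ne_infty _ hx
      · intro z hz
        induction z using OnePoint.rec with
        | infty => exact mem_of_mem_nhds hU
        | coe x =>
          refine hLU x fun hx => hz ⟨x, ?_, rfl⟩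
          obtain ⟨i, hi, hxi⟩ := mem_iUnion₂.1 (ht hx)
          exact mem_iUnion₂.2 ⟨i, hi, subset_closure hxi⟩
      · rw [frontier_compl, (hclc M hMc).frontier_eq]
        rintro _ ⟨⟨x, hx, rfl⟩, hxn⟩
        rw [hrc]
        obtain ⟨i, hi, hxi⟩ := mem_iUnion₂.1 hx
        have hxV : x ∉ V i := by
          intro hxV
          apply hxn
          rw [mem_interior]
          refine ⟨(fun x : X => (x : OnePoint X)) '' V i, image_mono ?_,
            OnePoint.isOpenEmbedding_coe.isOpenMap _ (hVo i), ⟨x, hxV, rfl⟩⟩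
          intro z hz
          exact mem_iUnion₂.2 ⟨i, hi, subset_closure hz⟩
        have : x ∈ frontier (V i) := by
          rw [(hVo i).frontier_eq]
          exact ⟨hxi, hxV⟩
        exact disjoint_left.1 (hVd i) this
    | coe x =>
      obtain ⟨V, hVo, hxV, hVU, hVc, hVd⟩ := h1 X E hE.closed hE.td x
        ((fun x : X => (x : OnePoint X)) ⁻¹' U) (OnePoint.continuous_coe.continuousAt hU)
      have hVo' : IsOpen ((fun x : X => (x : OnePoint X)) '' V) :=
        OnePoint.isOpenEmbedding_coe.isOpenMap _ hVo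
      refine ⟨(fun x : X => (x : OnePoint X)) '' V, hVo'.mem_nhds ⟨x, hxV, rfl⟩,
        image_subset_iff.2 hVU, ?_⟩
      rw [hVo'.frontier_eq]
      rintro z ⟨hz1, hz2⟩
      obtain ⟨w, hw, rfl⟩ := closure_minimal (image_mono subset_closure)
        (hclc _ hVc) hz1
      rw [hrc]
      have : w ∈ frontier V := by
        rw [hVo.frontier_eq]
        exact ⟨hw, fun h => hz2 ⟨w, h, rfl⟩⟩
      exact disjoint_left.1 hVd this
  have hconn : ∀ V : Set X, IsConnected (V \ E) → IsConnected ((fun s : Sb E => (s : X)) ⁻¹' V) := by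
    intro V hV
    have himg : (fun s : Sb E => (s : X)) '' ((fun s : Sb E => (s : X)) ⁻¹' V) = V \ E := by
      ext x
      constructor
      · rintro ⟨s, hs, rfl⟩
        exact ⟨hs, s.2⟩
      · rintro ⟨h1, h2⟩
        exact ⟨⟨x, h2⟩, h1, rfl⟩
    constructor
    · obtain ⟨x, hx1, hx2⟩ := hV.nonempty
      exact ⟨⟨x, hx2⟩, hx1⟩
    · have hin : IsInducing (fun s : Sb E => (s : X)) := IsInducing.subtypeVal
      rw [← hin.isPreconnected_image, himg]
      exact hV.isPreconnected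
  have hb : ∀ y, y ∉ range ι → ∀ U ∈ 𝓝 y, ∃ V ∈ 𝓝 y, V ⊆ U ∧ IsConnected (ι ⁻¹' V) := by
    intro y hy U hU
    induction y using OnePoint.rec with
    | infty =>
      obtain ⟨L, hL, hLU⟩ := hnhi U hU
      obtain ⟨L', hL', hLL', hcon⟩ := hE.inf L hL
      refine ⟨((fun x : X => (x : OnePoint X)) '' L')ᶜ,
        (hclc L' hL').isOpen_compl.mem_nhds ?_, ?_, ?_⟩
      · rintro ⟨x, -, hx⟩
        exact OnePoint.coe_ne_infty _ hx
      · intro z hz
        induction z using OnePoint.rec with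
        | infty => exact mem_of_mem_nhds hU
        | coe x => exact hLU x fun hx => hz ⟨x, hLL' hx, rfl⟩
      · have : ι ⁻¹' ((fun x : X => (x : OnePoint X)) '' L')ᶜ =
            (fun s : Sb E => (s : X)) ⁻¹' L'ᶜ := by
          ext s
          simp only [mem_preimage, mem_compl_iff, mem_image, not_exists, not_and]
          constructor
          · intro h hs
            exact h _ hs rfl
          · intro h x hx hxs
            exact h (hinj _ _ hxs ▸ hx)
        rw [this]
        exact hconn _ hcon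
    | coe x =>
      obtain ⟨V, hV, hVU, hcon⟩ := hE.loc x
        ((fun x : X => (x : OnePoint X)) ⁻¹' U) (OnePoint.continuous_coe.continuousAt hU)
      refine ⟨(fun x : X => (x : OnePoint X)) '' V,
        OnePoint.isOpenEmbedding_coe.isOpenMap.image_mem_nhds hV, image_subset_iff.2 hVU, ?_⟩
      have : ι ⁻¹' ((fun x : X => (x : OnePoint X)) '' V) = (fun s : Sb E => (s : X)) ⁻¹' V := by
        ext s
        simp only [mem_preimage, mem_image]
        constructor
        · rintro ⟨x, hx, hxs⟩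
          exact hinj _ _ hxs ▸ hx
        · intro h
          exact ⟨_, h, rfl⟩
      rw [this]
      exact hconn _ hcon
  obtain ⟨F, hF⟩ := extH ι hι ha hb f
  refine ⟨F, hF, ?_⟩
  intro hinf
  have hFr : ∀ y, F y ∈ range ι → y ∈ range ι := by
    rintro y ⟨s, hs⟩
    refine ⟨f.symm s, F.injective ?_⟩
    rw [hF, f.apply_symm_apply, hs]
  have hFi : F OnePoint.infty = OnePoint.infty := by
    by_contra hne
    obtain ⟨x, hx⟩ := OnePoint.ne_infty_iff_exists.1 hne
    by_cases hxE : x ∈ E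
    · exact hinf x hxE hx.symm
    · exact hri (hFr _ (hx ▸ (hrc x).2 hxE))
  have hFi' : F.symm OnePoint.infty = OnePoint.infty := by
    rw [F.symm_apply_eq, hFi]
  have hg : ∀ x : X, ∃ x' : X, (x' : OnePoint X) = F x := by
    intro x
    refine OnePoint.ne_infty_iff_exists.1 fun h => OnePoint.coe_ne_infty x ?_
    rw [← F.symm_apply_apply (x : OnePoint X), h, hFi']
  have hg' : ∀ x : X, ∃ x' : X, (x' : OnePoint X) = F.symm x := by
    intro x
    refine OnePoint.ne_infty_iff_exists.1 fun h => OnePoint.coe_ne_infty x ?_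
    rw [← F.apply_symm_apply (x : OnePoint X), h, hFi]
  choose g hg using hg
  choose g' hg' using hg'
  have hc1 : Continuous g := by
    rw [OnePoint.isOpenEmbedding_coe.isInducing.continuous_iff]
    exact (F.continuous.comp OnePoint.continuous_coe).congr fun x => (hg x).symm
  have hc2 : Continuous g' := by
    rw [OnePoint.isOpenEmbedding_coe.isInducing.continuous_iff]
    exact (F.symm.continuous.comp OnePoint.continuous_coe).congr fun x => (hg' x).symm
  refine ⟨⟨⟨g, g', fun x => hinj _ _ ?_, fun x => hinj _ _ ?_⟩, hc1, hc2⟩, ?_, ?_⟩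
  · rw [hg', hg, F.symm_apply_apply]
  · rw [hg, hg', F.apply_symm_apply]
  · intro s
    apply hinj
    change ((g s : X) : OnePoint X) = _
    rw [hg]
    exact hF s
  · intro x
    change g x ∈ E ↔ x ∈ E
    constructor
    · intro hgx
      by_contra hx
      have h3 : ((g x : X) : OnePoint X) = ι (f ⟨x, hx⟩) := by
        rw [hg]
        exact hF ⟨x, hx⟩
      exact (f ⟨x, hx⟩).2 (hinj _ _ h3 ▸ hgx)
    · intro hx
      by_contra hgx
      have h3 : F x ∈ range ι := by
        rw [← hg]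
        exact (hrc _).2 hgx
      exact (hrc x).1 (hFr _ h3) hx

end Pool.Agent.Helper85.LN
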