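import Pool.Agent.Helper85.LN.Basic

/-! Automata of polynomial activity satisfy `Reach`. -/

namespace Pool.Agent.Helper85.LN

/-- Polynomial activity: the number of words of length `n` at which the section of a state is not trivial is
bounded by a polynomial in `n`. -/
def PolyAct {Q X : Type*} (A : Auto Q X) : Prop :=
  ∀ q, ∃ C D : ℕ, ∀ n : ℕ,
    {u : List X | u.length = n ∧ A.perm (A.run q u) ≠ 1}.ncard ≤ C * (n + 1) ^ D

open Helper5.Gap

theorem growth_one {H : Type*} [Group H] {Y : Set H} (hY : ∀ y ∈ Y, y = 1) (n : ℕ) :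
    growth Y n ≤ 1 := by
  have h : ball Y n ⊆ {1} := by
    rintro g ⟨l, _, hl, rfl⟩
    have h1 : ∀ x ∈ l, x = 1 := by
      intro x hx
      rcases hl x hx with h | h
      · exact hY x h
      · exact inv_eq_one.1 (hY _ h)
    exact List.prod_eq_one h1
  calc growth Y n ≤ ({1} : Set H).ncard := Set.ncard_le_ncard h (Set.finite_singleton 1)
    _ = 1 := Set.ncard_singleton 1

theorem perm_tr {Q X : Type*} (A : Auto Q X) {q : Q} (h : A.perm q = 1) (a : X) :
    A.perm (A.tr q a) = 1 := by
  ext1 w
  have h1 := A.perm_cons q a w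
  rw [h] at h1
  exact (List.cons.inj h1).2.symm

theorem ncard_lists (d n : ℕ) : {u : List (Fin d) | u.length = n}.ncard = d ^ n := by
  have h : {u : List (Fin d) | u.length = n} =
      Set.range (fun v : Fin n → Fin d => List.ofFn v) := by
    ext u
    constructor
    · rintro rfl
      exact ⟨u.get, List.ofFn_get u⟩
    · rintro ⟨v, rfl⟩
      simp
  rw [h, ← Set.image_univ, Set.ncard_image_of_injective _ List.ofFn_injective, Set.ncard_univ,
    Nat.card_eq_fintype_card, Fintype.card_fun, Fintype.card_fin, Fintype.card_fin]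

theorem two_pow_gt (C D : ℕ) : ∃ n : ℕ, C * (n + 1) ^ D < 2 ^ n := by
  have h1 : Filter.Tendsto (fun n : ℕ => ((n : ℝ) ^ (D + 1)) / (2 : ℝ) ^ n) Filter.atTop (nhds 0) :=
    tendsto_pow_const_div_const_pow_of_one_lt (D + 1) (by norm_num)
  have h2 := h1.eventually (gt_mem_nhds (show (0 : ℝ) < 1 / 2 by norm_num))
  obtain ⟨N, hN⟩ := Filter.eventually_atTop.1 h2
  refine ⟨max N C, ?_⟩
  set n := max N C with hn
  have h3 := hN (n + 1) (by omega)
  have h4 : C ≤ n + 1 := by omega
  have h5 : ((n + 1 : ℕ) : ℝ) ^ (D + 1) < (2 : ℝ) ^ n := by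
    rw [div_lt_iff₀ (by positivity)] at h3
    have : (1 / 2 : ℝ) * 2 ^ (n + 1) = 2 ^ n := by ring
    rwa [this] at h3
  have h6 : (n + 1) ^ (D + 1) < 2 ^ n := by exact_mod_cast h5
  calc C * (n + 1) ^ D ≤ (n + 1) * (n + 1) ^ D := Nat.mul_le_mul_right _ h4
    _ = (n + 1) ^ (D + 1) := by ring
    _ < 2 ^ n := h6

theorem polyAct_reach {m d : ℕ} (A : Auto (Fin m) (Fin d)) (h : PolyAct A) : Reach A := by
  refine ⟨{q | A.perm q = 1}, fun q hq a => perm_tr A hq a, ?_, 1, 0, ?_⟩
  · intro q
    by_contra hc
    push Not at hc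
    have hc' : ∀ u, A.perm (A.run q u) ≠ 1 := fun u => hc u
    obtain ⟨C, D, hCD⟩ := h q
    have h1 : ∀ n : ℕ, d ^ n ≤ C * (n + 1) ^ D := by
      intro n
      have h2 := hCD n
      have h3 : {u : List (Fin d) | u.length = n ∧ A.perm (A.run q u) ≠ 1} =
          {u : List (Fin d) | u.length = n} := by
        ext u
        simp [hc' u]
      rwa [h3, ncard_lists] at h2
    rcases Nat.lt_or_ge d 2 with hd | hd
    · apply hc' []
      ext1 w
      have : ∀ (w v : List (Fin d)), w.length = v.length → w = v := by
        intro w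
        induction w with
        | nil => intro v hv; exact (List.length_eq_zero_iff.1 hv.symm).symm
        | cons a w ih =>
          intro v hv
          cases v with
          | nil => simp at hv
          | cons b v =>
            have hab : a = b := by
              apply Fin.ext
              have := a.2
              have := b.2
              omega
            rw [hab, ih v (by simpa using hv)]
      apply this
      have h4 := A.val_length [(A.run q [], true)] w
      simpa [Auto.val, Auto.ps] using h4
    · obtain ⟨n, hn⟩ := two_pow_gt C D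
      have h5 := h1 n
      have h6 : 2 ^ n ≤ d ^ n := Nat.pow_le_pow_left hd n
      omega
  · intro n
    have : growth (A.perm '' {q | A.perm q = 1}) n ≤ 1 := by
      apply growth_one
      rintro _ ⟨q, hq, rfl⟩
      exact hq
    simpa using this

end Pool.Agent.Helper85.LN
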