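import Pool.Agent.Helper85.LN.Goals
import Pool.Agent.Helper85.LN.PolyAct

/-! Assembly of project LN from the goals. -/

namespace Pool.Agent.Helper85.LN

open Helper5.Gap

/-- The first result of the project. -/
def Res1 : Prop := ∃ f : AC →. Bool, Partrec f ∧ ∀ (m d : ℕ) (A : Auto (Fin m) (Fin d)),
  (∀ b ∈ f (enc A), (b = true ↔ A.LN)) ∧
  (¬ A.LN → (f (enc A)).Dom) ∧
  (Group.IsFinitelyPresented A.G → (∀ a, SecFin A a) → (f (enc A)).Dom) ∧
  (PolyAct A → (f (enc A)).Dom) ∧ (Reach A → (f (enc A)).Dom) ∧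
  (Contr A → (f (enc A)).Dom) ∧ (BiRev A → (f (enc A)).Dom) ∧
  (A.LN → Reach A ∨ Contr A → VirtNilpotent A.G ∧ ∀ a, SecFin A a)

theorem fg_G {m d : ℕ} (A : Auto (Fin m) (Fin d)) : Group.FG A.G :=
  (Group.fg_iff_subgroup_fg A.G).2
    ((Subgroup.fg_iff _).2 ⟨Set.range A.perm, rfl, Set.finite_range _⟩)

theorem assemble1 (snd : S_SND) (vios : S_VIOS) (pres : S_PRES) (certg : S_CERTG) (certa : S_CERTA)
    (birev : S_BIREV) (gt1 : S_GT1) (gt2 : S_GT2) (grown : S_GROWN) (fidx : S_FIDX) (grom : S_GROM)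
    (vnfp : S_VNFP) (pchk : S_PCHK) (pvio : S_PVIO) (rfind : S_RFIND) (enc0 : S_ENC0) (enc1 : S_ENC1)
    (encc : S_ENCC) (encv : S_ENCV) : Res1 := by
  obtain ⟨f, hf, h1, h2⟩ := rfind ChkC VioC pchk pvio
  refine ⟨f, hf, fun m d A => ?_⟩
  have hC : (∃ c, ChkC (enc A) c) ↔ Cert A := encc enc0 enc1 m d A
  have hV : (∃ c, VioC (enc A) c) ↔ ¬ A.LN := (encv enc0 m d A).trans (vios m d A).symm
  have hnot : ¬ A.LN → (f (enc A)).Dom := fun h => h2 _ (Or.inr (hV.2 h))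
  have hcert : (A.LN → Cert A) → (f (enc A)).Dom := by
    intro h
    by_cases hA : A.LN
    · exact h2 _ (Or.inl (hC.2 (h hA)))
    · exact hnot hA
  have hfp : A.LN → Group.IsFinitelyPresented A.G → (∀ a, SecFin A a) → Cert A := by
    intro hA hG hS
    obtain ⟨R, hR⟩ := pres m d A hG
    exact certa certg m d A R hA hS hR
  have hpoly : A.LN → PolyG (Set.range A.perm) → VirtNilpotent A.G ∧ ∀ a, SecFin A a :=
    fun hA hP => ⟨grom m d A hP, fidx m d A hA hP⟩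
  have hpc : A.LN → PolyG (Set.range A.perm) → Cert A := by
    intro hA hP
    obtain ⟨hN, hS⟩ := hpoly hA hP
    exact hfp hA (vnfp _ (fg_G A) hN) hS
  have hreach : Reach A → (f (enc A)).Dom := fun h => hcert fun hA => hpc hA (gt2 gt1 m d A hA h)
  refine ⟨?_, hnot, fun hG hS => hcert fun hA => hfp hA hG hS, fun h => hreach (polyAct_reach A h),
    hreach, fun h => hcert fun hA => hpc hA (grown m d A hA h), fun h => hcert fun _ => birev m d A h,
    ?_⟩
  · intro b hb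
    rcases h1 _ b hb with ⟨rfl, h⟩ | ⟨rfl, h⟩
    · exact ⟨fun _ => snd m d A (hC.1 h), fun _ => rfl⟩
    · exact ⟨fun h' => absurd h' (by decide), fun h' => absurd h' (hV.1 h)⟩
  · intro hA h
    rcases h with h | h
    · exact hpoly hA (gt2 gt1 m d A hA h)
    · exact hpoly hA (grown m d A hA h)

/-- The second result of the project. -/
def Res2 : Prop := ∀ (m d : ℕ) (A : Auto (Fin m) (Fin d)),
  A.LN ↔ ∀ a b : Fin d, a ≠ b → ¬ Mem A a b

theorem assemble2 (mem1 : S_MEM1) (mem2 : S_MEM2) : Res2 :=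
  fun m d A => ⟨mem2 m d A, mem1 m d A⟩

end Pool.Agent.Helper85.LN
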