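import Pool.Agent.Helper85.LN.Basic
import Pool.Agent.Helper85.LN.Code

/-!
# Goals of project LN (MP_d0c558_al)

Notation used in the proofs: `w@a` is the section `A.toWA.scw w a` of a word `w` of signed states at the
letter `a`, and `w(a)` is `A.toWA.ltw w a`.  All basic facts (`val_apply_cons`, `val_append`, `val_iw`,
`mem_G_iff`, `LN_iff`, `scw_append`, `scw_iw`, `scw_length`, algebra of `Eqv`, `Resp.eqv`, `Resp.val`)
are in `Basic.lean`.
-/

namespace Pool.Agent.Helper85.LN

open Helper5.Gap

/-- Value of a word in a group. -/
def ev {Q H : Type*} [Group H] (γ : Q → H) (w : List (S Q)) : H :=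
  (w.map fun s => cond s.2 (γ s.1) (γ s.1)⁻¹).prod

/-- SND: certificates are correct.

Proof. Let `(R, k, B, t, l)` be the certificate; write `u ~ v` for `Eqv R u v`.  By `Resp.eqv` both
`A.toWA` and `B` respect `~` and by `Resp.val` equivalent words have equal values.  The third condition
extends from one positive state to all words `w` and letters `a` (induction on `w` with
`ltw_append`, `scw_append`, `lt_neg`, `sc_neg`; a negative letter is treated by cancellation):
`B.ltw (w@a) (t a) = t (w(a))` and `B.scw (w@a) (t a) ++ l a ~ l (w(a)) ++ w`.      (1)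
(For `w = (q,false) :: w'` put `b = w'(a)`, `c = (A.out q).symm b`, `p = A.tr q c`, so that
`w(a) = c` and `w@a = (p,false) :: w'@a`; the condition at `(q, c)` reads
`B.lt (p,true) (t c) = t b`, `B.sc (p,true) (t c) ++ l c ~ l b ++ [(q,true)]`, hence
`B.lt (p,false) (t b) = t c` and, as `B.sc (p,false) (t b) = iw (B.sc (p,true) (t c))` (`sc_neg`),
`B.sc (p,false) (t b) ++ l b ~ l c ++ [(q,false)]`.)
Consequence: if `w(a) = a` and `w@a ~ u@a` and `u(a) = a` then `w ~ u`: by (1) and `Resp.eqv` for `B`,
`l a ++ w ~ B.scw (w@a) (t a) ++ l a ~ B.scw (u@a) (t a) ++ l a ~ l a ++ u` and `Eqv.cancel`.      (2)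
Now let `w(a) = a` and `val (w@a) = 1`; by `LN_iff` we must show `val w = 1`.  Let `n = w.length`.
Let `F` be the finite set of words `v` of length `n` with `val v = 1` (`Q` is finite) and `F/~` its set of
classes.  The map `v ↦ v@a` sends `F` to `F` (`ltw_of_val_eq_one`, `scw_of_val_eq_one`, `scw_length`),
respects `~` (`Resp.eqv`) and is injective on classes by (2); so it is surjective on the finite set of
classes.  As `w@a ∈ F` there is `v ∈ F` with `v@a ~ w@a`; as `v(a) = a`, (2) gives `w ~ v` and so
`val w = val v = 1`. -/
def S_SND : Prop := ∀ (m d : ℕ) (A : Auto (Fin m) (Fin d)), Cert A → A.LN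

/-- VIOS: violations of local nontriviality are finite objects.

Proof. From right to left: let `g = val w`.  The section `s = secw A w u` satisfies
`val w (u ++ x) = val w u ++ val (secw A w u) x` (induction on `u` with `val_apply_cons`), and all words in
`L` have value one (`val_eq_one_of` in the form: by induction on the length of `x`, `val s x = x` for all
`s ∈ L`).  So `g` fixes all words `u ++ x` but `g v ≠ v`, so `g ≠ 1` and `LN` fails.
From left to right: by `mem_G_iff` there are `w`, `u` with `val w (u ++ x) = u ++ x` for all `x` and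
`val w ≠ 1`, so `val w v ≠ v` for some `v`.  Then `val w u = u` and `val (secw A w u) = 1`.  Let `L` be a
list of all words of length `w.length` with value one (the set is finite, `Q` is finite); it is closed under
sections by `ltw_of_val_eq_one`, `scw_of_val_eq_one`, `scw_length`; `secw A w u` has length
`w.length`. -/
def S_VIOS : Prop := ∀ (m d : ℕ) (A : Auto (Fin m) (Fin d)), ¬ A.LN ↔ Vio A

/-- PRES: finite presentations on the given generators.

Proof. (i) If `φ : FreeGroup (Fin n) →* G` is surjective with kernel the normal closure of the finite set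
`T` and `ψ : FreeGroup Q →* G` is surjective, `Q` finite, then the kernel of `ψ` is the normal closure of a
finite set: choose `α : FreeGroup (Fin n) →* FreeGroup Q` with `ψ ∘ α = φ` and
`β : FreeGroup Q →* FreeGroup (Fin n)` with `φ ∘ β = ψ` (`FreeGroup.lift`).  Let
`T' = α '' T ∪ {(α (β q))⁻¹ * q | q generator}`.  Then `T' ⊆ ker ψ`; conversely modulo the normal closure of
`T'` the homomorphisms `α ∘ β` and `id` agree on generators, so everywhere; for `u ∈ ker ψ` we get
`β u ∈ ker φ = normalClosure T`, so `α (β u) ∈ normalClosure (α '' T)` and `u ∈ normalClosure T'`.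
(ii) Apply (i) to `ψ = FreeGroup.lift` of `q ↦ A.perm q` with values in `A.G` (surjective); note
`(ψ (FreeGroup.mk w) : Equiv.Perm _) = A.val w` (`FreeGroup.lift_mk`).  Let `R` be the list of the
`FreeGroup.toWord r`, `r` in the finite set.
(iii) `Eqv R w [] ↔ FreeGroup.mk w ∈ Subgroup.normalClosure {g | ∃ r ∈ R, g = FreeGroup.mk r}`.
From left to right: `Stp R u v` implies that `mk u` and `mk v` are equal modulo the normal closure.  From right to
left: `mk u = mk v` implies `Eqv R u v` (a reduction step `FreeGroup.Red.Step` is an inverse of an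
elementary step), so `{g | Eqv R g.toWord []}` is a normal subgroup which contains the relators (algebra of
`Eqv` in `Basic.lean`: `append`, `iw`, `mul_iw`, `rel`). -/
def S_PRES : Prop := ∀ (m d : ℕ) (A : Auto (Fin m) (Fin d)), Group.IsFinitelyPresented A.G →
  ∃ R : List (List (S (Fin m))), ∀ w, A.val w = 1 ↔ Eqv R w []

/-- CERTG: construction of the biset, in an abstract group.

Proof. Write `g • a` for `act g a` and `g@a` for `sec g a`.  Choose a representative `x = rep y` of each orbit and
`c y : H` with `(c y) • x = y`.  For a representative `x` put `st x = {s | s • x = x}` (a subgroup),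
`φ s = s@x` on it (a homomorphism, injective by the second hypothesis) and `L x = φ (st x)`, a subgroup of
finite index by the third hypothesis.  Choose a finite transversal `T x` of the left cosets `H ⧸ L x`, and let
`Z` be the finite set of pairs `(x, τ)`, `x` a representative, `τ ∈ T x`; `k = card Z` and identify `Z` with
`Fin k`.  For `p : H` and `z = (x, τ)` let `p ∘ z = (x, τ')` where `τ' ∈ T x` is in the coset `p τ L x`, and let
`σ p z ∈ st x` be the unique element with `φ (σ p z) = τ'⁻¹ * p * τ`.  Then `p ∘ ·` is an action of `H` on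
`Z` and `σ (p * p') z = σ p (p' ∘ z) * σ p' z`, `σ 1 z = 1`.  Let `B.out q = (γ q) ∘ ·`, and let
`B.sec1 q z` be a word with value `σ (γ q) z` (words exist: `closure (range γ) = ⊤`).  By induction on `w`:
`B.ltw w z = (ev γ w) ∘ z` and `ev γ (B.scw w z) = σ (ev γ w) z` (for negative letters use `lt_neg`,
`sc_neg`).  In particular the first conclusion holds: if `ev γ w = 1` the point is fixed and the value of the
section is `σ 1 z = 1`.
Points: for a letter `y` with representative `x` write `(c y)@x = τ * φ s` with `τ ∈ T x`, `s ∈ st x`, and let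
`t y = (x, τ)` and `l y` a word with value `s * (c y)⁻¹`.
Second conclusion: let `b = (γ q) • a`, `p = γ (tr q a) = (γ q)@a`; `a` and `b` have the same representative
`x`.  Put `s = (c b)⁻¹ * γ q * c a ∈ st x`; by the cocycle rule (which also gives `sec g⁻¹ (g • a) = (sec g a)⁻¹`)
`φ s = ((c b)@x)⁻¹ * p * (c a)@x`, so `p * (c a)@x = (c b)@x * φ s`.  Let `(c a)@x = τa * φ sa`,
`(c b)@x = τb * φ sb`.  So `p τa L x = τb L x`, i.e. `p ∘ (t a) = t b`, and with `σ = σ p (t a)`,
`φ (σ * sa) = τb⁻¹ * p * τa * φ sa = τb⁻¹ * (c b)@x * φ s = φ (sb * s)`, so `σ * sa = sb * s` and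
`σ * (sa * (c a)⁻¹) = sb * s * (c a)⁻¹ = (sb * (c b)⁻¹) * γ q`. -/
def S_CERTG : Prop := ∀ (H : Type) [Group H] (m d : ℕ) (act : H →* Equiv.Perm (Fin d))
  (sec : H → Fin d → H) (γ : Fin m → H) (tr : Fin m → Fin d → Fin m),
  (∀ g h a, sec (g * h) a = sec g (act h a) * sec h a) →
  (∀ g a, act g a = a → sec g a = 1 → g = 1) →
  (∀ a, ∃ E : Finset H, ∀ g, ∃ e ∈ E, ∃ h, act h a = a ∧ sec h a = e⁻¹ * g) →
  Subgroup.closure (Set.range γ) = ⊤ → (∀ q a, γ (tr q a) = sec (γ q) a) →
  ∃ (k : ℕ) (B : WA (Fin m) (Fin k)) (t : Fin d → Fin k) (l : Fin d → List (S (Fin m))),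
    (∀ w, ev γ w = 1 → ∀ z, B.ltw w z = z ∧ ev γ (B.scw w z) = 1) ∧
    ∀ q a, B.lt (tr q a, true) (t a) = t (act (γ q) a) ∧
      ev γ (B.sc (tr q a, true) (t a)) * ev γ (l a) = ev γ (l (act (γ q) a)) * γ q

/-- CERTA: certificates exist for finitely presented groups with section groups of finite index.

Proof. Apply CERTG to `H = A.G`, `act g a` = the first letter of `g [a]` (for `g = A.val w` it is
`A.toWA.ltw w a`), `sec g a` = the element of `A.G` with `g (a :: u) = act g a :: (sec g a) u` (for
`g = A.val w` it is `A.val (A.toWA.scw w a)`; see `mem_G_iff`, `val_apply_cons`), `γ q = A.perm q`,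
`tr = A.tr`.  The second hypothesis of CERTG is `LN` (word `u = [a]`), the third is `SecFin`.
From the result we get `Cert A` with the given `R`: `Eqv R u v` follows from `val u = val v`, because
`val (u ++ iw v) = 1` gives `Eqv R (u ++ iw v) []`.  `Resp R A.toWA`: for `r ∈ R` we have `val r = 1`
(`Eqv.rel`), so `ltw_of_val_eq_one` and `scw_of_val_eq_one`. -/
def S_CERTA : Prop := S_CERTG → ∀ (m d : ℕ) (A : Auto (Fin m) (Fin d))
  (R : List (List (S (Fin m)))), A.LN → (∀ a, SecFin A a) → (∀ w, A.val w = 1 ↔ Eqv R w []) → Cert A

/-- BIREV: bireversible automata have certificates.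

Proof. Take `R = []`, `k = d`, `t = id`, `l a = []` and, for a state `p` and a letter `a`, let `q` be the
unique state with `A.tr q a = p` (first condition of `BiRev`, finiteness); `B.out p a = A.out q a` and
`B.sec1 p a = [(q, true)]`.  `B.out p` is injective, hence a permutation: if `A.out q a = A.out q' a' = b`
with `A.tr q a = A.tr q' a' = p` then `A.tr q ((A.out q).symm b) = p = A.tr q' ((A.out q').symm b)`, so
`q = q'` by the second condition and `a = a'`. -/
def S_BIREV : Prop := ∀ (m d : ℕ) (A : Auto (Fin m) (Fin d)), BiRev A → Cert A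

/-! ### Growth -/

/-- GT1: few sections leave the closed set `T`.

Proof. For `k` and a state `q` let `bad k q` be the number of lists `u` of length `k * M` with
`A.run q u ∉ T`.  `bad k q ≤ (d ^ M - 1) ^ k`: induction on `k`; for `k + 1` split `u = u' ++ u''` with
`u''.length = M`; if `run q u ∉ T` then `run q u' ∉ T` (closedness) and `u''` is not the list provided by the
hypothesis for the state `run q u'`.  For a word `w` and a decomposition `w = w₁ ++ s :: w₂` the entry of
`secw A w u` at the place of `s` is obtained as follows: let `u' = A.val w₂ u` (a bijection of the lists of length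
`k * M`, `val_length`); for `s = (q, true)` the entry is `(A.run q u', true)`, for `s = (q, false)` it is
`(A.run q u'', false)` with `u'' = A.inv q u'`, again a bijection.  So the number of `u` for which this entry
is not in `T` is at most `(d ^ M - 1) ^ k`, and the union bound over the entries of `w` gives the claim. -/
def S_GT1 : Prop := ∀ (m d : ℕ) (A : Auto (Fin m) (Fin d)) (T : Set (Fin m)) (M k : ℕ)
  (w : List (S (Fin m))), (∀ q ∈ T, ∀ a, A.tr q a ∈ T) →
  (∀ q, ∃ u : List (Fin d), u.length = M ∧ A.run q u ∈ T) →
  {u : List (Fin d) | u.length = k * M ∧ ∃ s ∈ secw A w u, s.1 ∉ T}.ncard ≤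
    w.length * (d ^ M - 1) ^ k

/-- GT2: polynomial growth from a reachable closed set of polynomial growth.

Proof. Let `T` be as in `Reach A`.  If `d = 0` then `List (Fin 0)` is a point and the claim is trivial.  Let
`M` be the maximum of the lengths of lists `u_q` with `run q u_q ∈ T`; by closedness we can prolong all of them to
length `M` and apply GT1.  Let `X = d ^ M`.  For `n ≥ 1` choose the least `k` with `n * (X - 1) ^ k < X ^ k`
(it exists; `k ≤ C * log n + C` with `C` depending on `X` only, because `(1 + 1/(X-1)) ^ k > n` as soon as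
`k > log n / log (X/(X-1))`; if `X = 1` then `k = 1`).  For every word `w` of length `≤ n` there is `u` of length
`k * M` such that all entries of `secw A w u` are in `T` (there are `X ^ k` lists of length `k * M`), so
`A.val (secw A w u)` is in the ball of radius `n` of the subgroup generated by `A.perm '' T` (`secw` keeps the
length).  For `g` in `ball (Set.range A.perm) n` choose a word `w` of length `≤ n` with value `g` and such a `u`; the
map `g ↦ (u, g u, A.val (secw A w u))` is injective by `LN`: if the triples of `g` and `h` agree then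
`h⁻¹ * g` fixes all `u ++ x`.  So `growth (Set.range A.perm) n ≤ (d ^ (k * M)) ^ 2 * growth (A.perm '' T) n`,
which is bounded by a polynomial in `n`. (All balls are finite, as the generating sets are.) -/
def S_GT2 : Prop := S_GT1 → ∀ (m d : ℕ) (A : Auto (Fin m) (Fin d)), A.LN → Reach A →
  PolyG (Set.range A.perm)

/-- GROWN: locally nontrivial contracting groups have polynomial growth.

Proof. Let `N` be as in `Contr A` and let `E` be the finite set of all `g ∈ A.G` whose underlying function is in
`N`.  For `g = A.val w` and a list `u` the function `sct g u` is the underlying function of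
`A.val (secw A w u)`.  Let `F = E ∪ {generators and their inverses} ∪ {1}`, a finite set.  There is `K ≥ 1` such that
for all `a, b ∈ F` all sections of `a * b` at lists of length `≥ K` are in `E`.  Hence (induction on `j`): if
`g` is a product of at most `2 ^ j` elements of `F` and `u` is a list of length `K * j` then the section of `g` at
`u` is in `F` (pair the factors; a section of a product is a product of sections).  If `d = 0` the claim is
trivial; otherwise fix one list `u` of length `K * j`; by `LN` the map `g ↦ (g u, section of g at u)` is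
injective on `A.G`, so `growth (Set.range A.perm) (2 ^ j) ≤ d ^ (K * j) * card F`.  With
`2 ^ (j-1) ≤ n ≤ 2 ^ j` this is a polynomial bound (`d ^ (K j) = (2 ^ j) ^ (K log₂ d)`, bound `d ≤ 2 ^ d`). -/
def S_GROWN : Prop := ∀ (m d : ℕ) (A : Auto (Fin m) (Fin d)), A.LN → Contr A →
  PolyG (Set.range A.perm)

/-- FIDX: polynomial growth and local nontriviality give section groups of finite index.

Proof. Let `β n = growth (Set.range A.perm) n ≤ C * (n + 1) ^ D` and `B n` the balls.  Fix the letter `a`; let
`St = {h ∈ A.G | h [a] = [a]}` and `L` the subgroup of the sections at `a` of the elements of `St` (for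
`h = A.val w`: `A.val (A.toWA.scw w a)`).  Suppose that `SecFin A a` fails; then `L` has infinitely many left
cosets in `A.G` (if `E` is a finite set of representatives of the cosets then it satisfies the definition).
(1) The number of cosets `g L` with `g ∈ B n` is at least `n + 1`: the sets `Ω n = {g L | g ∈ B n}` increase, and if
`Ω n = Ω (n+1)` then `Ω n` is stable under left multiplication by generators and their inverses, so it is the
finite set of all cosets.  (2) `β (2 n) ≥ (n + 1) * |L ∩ B n|`: the products `g * l`, one `g ∈ B n` for each coset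
in `Ω n`, `l ∈ L ∩ B n`, are distinct.  (3) `|L ∩ B n| ≥ |St ∩ B n|`: the map section at `a` is injective on
`St` by `LN` and does not increase the length of words (`scw_length`).  (4) There is `c` with
`β n ≤ d * |St ∩ B (n + c)|`: for each letter `b` in the orbit of `a` choose a word `v_b` whose value maps `b` to
`a`, let `c` be the maximal length; the map `g ↦ (first letter of g [a], v_b * g)`, `b = g [a]`, is injective.
So `d * β (2 (n + c)) ≥ (n + c + 1) * β n`.  Let `Λ = 2 ^ (D + 1)`; for `n + c + 1 ≥ Λ * d` we get
`β (2 (n + c)) ≥ Λ * β n`.  Put `n₀ = Λ * d`, `n_{j+1} = 2 (n_j + c)`; then `n_j ≤ 2 ^ j * (n₀ + 2 c)` and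
`Λ ^ j ≤ β (n_j) ≤ C * (2 ^ j * (n₀ + 2 c) + 1) ^ D`, a contradiction for large `j`. -/
def S_FIDX : Prop := ∀ (m d : ℕ) (A : Auto (Fin m) (Fin d)), A.LN → PolyG (Set.range A.perm) →
  ∀ a, SecFin A a

/-- GROM: polynomial growth implies virtual nilpotence, by the theorem of helper5 (for MP_f1caa3_al):
`Pool.Agent.Helper5.ST.finalResult` (see `Pool/Agent/Results/MP_f1caa3_al/UniversalBound.lean`), which gives
`exp (c * (log n) ^ (4/3)) ≤ growth X n` for groups which are not virtually nilpotent and all finite generating
sets `X`.  Apply it to the group `A.G` with the finite generating set `{⟨A.perm q, _⟩ | q}`; its growth function is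
that of `Set.range A.perm` (the balls correspond under the injective map `A.G.subtype`).  A polynomial
`C * (n + 1) ^ D` is smaller than `exp (c * (log n) ^ (4/3))` for large `n`. -/
def S_GROM : Prop := ∀ (m d : ℕ) (A : Auto (Fin m) (Fin d)), PolyG (Set.range A.perm) →
  VirtNilpotent A.G

/-- VNFP: finitely generated virtually nilpotent groups are finitely presented.

Proof. (i) If `N` is a normal subgroup of `G` and `N` and `G ⧸ N` are finitely presented then `G` is finitely
presented: let `x` be generators of `N` with relators `r(x)`, `y` elements of `G` whose images generate `G ⧸ N` with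
relators `s(y)`; `G` is presented by `x, y` with relators `r(x)`, `s(y) * w_s(x)⁻¹` (the word `w_s` expresses the
element `s(y)` of `N`), `y x y⁻¹ * w_{y,x}(x)⁻¹` and `y⁻¹ x y * w'_{y,x}(x)⁻¹`.  (Abstractly: let `P` be the group with this
presentation, `f : P → G` surjective, `M` the subgroup of `P` generated by the `x`, which is normal; `f` is injective on `M`
because of the relators `r`, and `P ⧸ M → G ⧸ N` is injective because of the relators `s`; so `f` is an isomorphism and use
`Group.IsFinitelyPresented.equiv`.)
(ii) Finitely generated nilpotent groups: by `Helper39.Uct.t_PZI` and `Helper51.Uct2.t_NP`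
(`Pool/Agent/Helper39/Uct/Main2.lean`, `Goals3.lean`) it is enough to treat finite groups (Mathlib instance) and
groups `Q` with a surjective `f : Q →* Multiplicative ℤ` with finitely presented kernel (use (i)); or use the centre and
`Helper51.Uct2.sub_fg_of_nilp`.
(iii) General case: the normal core of a nilpotent subgroup of finite index is nilpotent, of finite index, finitely
generated (`Subgroup.fg_of_index_ne_zero`), so finitely presented by (ii); the quotient is finite; use (i). -/
def S_VNFP : Prop := ∀ (G : Type) [Group G], Group.FG G → VirtNilpotent G →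
  Group.IsFinitelyPresented G

/-! ### Computability -/

/-- PCHK: the check of certificates is primitive recursive.

Proof. All functions in `Code.lean` are compositions of `List.getD`, `List.idxOf`, `List.foldr`, `List.map`,
`List.reverse`, `++`, `List.take`, `List.drop`, `List.length`, and all quantifiers are bounded
(`Primrec.list_foldr`, `Primrec.list_getD`, `Primrec.list_idxOf`, `PrimrecRel.forall_mem_list`, `PrimrecRel.exists_lt`, ...,
in `Mathlib/Computability/Primrec/List.lean`).  Suggestion: prove one lemma for each definition (`iwC`, `ltC`, `scC`, `runC`,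
`StpC`, `ChainC`, `EqvC`, `Chk1`, `Chk2`, `Chk3`) in a form like
`Primrec f → Primrec g → ... → PrimrecPred (fun a => EqvC (f a) (g a) ...)` over an arbitrary `Primcodable` type. -/
def S_PCHK : Prop := PrimrecPred fun p : AC × CC => ChkC p.1 p.2

/-- PVIO: the check of violations is primitive recursive (as PCHK; `actC` is a `List.foldl`). -/
def S_PVIO : Prop := PrimrecPred fun p : AC × VC => VioC p.1 p.2

/-- RFIND: search for a certificate of one of two types.

Proof. Search (`Nat.rfind`) for the least `n` such that `decode n : Option (β ⊕ γ)` is a certificate, and output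
its type. -/
def S_RFIND : Prop := ∀ (P : AC → CC → Prop) (V : AC → VC → Prop),
  (PrimrecPred fun p : AC × CC => P p.1 p.2) → (PrimrecPred fun p : AC × VC => V p.1 p.2) →
  ∃ f : AC →. Bool, Partrec f ∧
    (∀ x b, b ∈ f x → (b = true ∧ ∃ c, P x c) ∨ (b = false ∧ ∃ c, V x c)) ∧
    ∀ x, ((∃ c, P x c) ∨ ∃ c, V x c) → (f x).Dom

/-- ENC0: the functions on codes compute the right things.

Proof. Inductions.  For `idxOf`: the row of `q` is `List.ofFn fun z => (W.out q z : ℕ)`, without repetitions, and
`List.idxOf (W.out q z) = z`.  For `A : Auto`, the table `tabA (enc A)` represents `A.toWA`. -/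
def S_ENC0 : Prop :=
  (∀ (m k : ℕ) (T : Tab) (W : WA (Fin m) (Fin k)), Reps T W → ∀ (w : List (S (Fin m))) (z : Fin k),
    runC T (codeW w) z = ((W.ltw w z : ℕ), codeW (W.scw w z))) ∧
  (∀ (m k : ℕ) (T : Tab) (W : WA (Fin m) (Fin k)), Reps T W → ∀ (s : S (Fin m)) (z : Fin k),
    ltC T ((s.1 : ℕ), s.2) z = (W.lt s z : ℕ) ∧ scC T ((s.1 : ℕ), s.2) z = codeW (W.sc s z)) ∧
  (∀ (m d : ℕ) (A : Auto (Fin m) (Fin d)), Reps (tabA (enc A)) A.toWA) ∧
  ∀ (m d : ℕ) (A : Auto (Fin m) (Fin d)) (w : List (S (Fin m))) (u : List (Fin d)),
    actC (tabA (enc A)) (codeW w) (u.map fun a => (a : ℕ)) =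
      ((A.val w u).map fun a => (a : ℕ), codeW (secw A w u))

/-- ENC1: chains of elementary steps and `Eqv`.

Proof. Left to right: by induction on the length of the chain; every word in the chain is `codeW` of a word
(`OkC`), `codeW` is injective and commutes with `take`, `drop`, `++`.  Right to left: the existence of chains is
proved by induction on `Relation.EqvGen` (concatenate and reverse chains). -/
def S_ENC1 : Prop := ∀ (m : ℕ) (R : List (List (S (Fin m)))) (u v : List (S (Fin m))),
  (∃ c, ChainC m (R.map codeW) c (codeW u) (codeW v)) ↔ Eqv R u v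

/-- ENCC: codes of certificates (uses ENC0, ENC1).

Proof. Right to left: take the tables of the certificate (`List.ofFn`), `codeW` of all words, and for the pool `K`
a list of chains for the finitely many equivalences needed (ENC1).  Left to right: all words in the certificate are
`codeW` of words by the conditions `OkC`; the rows of `B.1` of the states have length `k` and contain all `z < k`, so they
are permutations of `List.range k` and define `B.out`; `Reps` holds for the decoded `B` (rows as `List.ofFn`);
then use ENC0 and ENC1. -/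
def S_ENCC : Prop := S_ENC0 → S_ENC1 → ∀ (m d : ℕ) (A : Auto (Fin m) (Fin d)),
  (∃ c, ChkC (enc A) c) ↔ Cert A

/-- ENCV: codes of violations (uses ENC0). -/
def S_ENCV : Prop := S_ENC0 → ∀ (m d : ℕ) (A : Auto (Fin m) (Fin d)),
  (∃ c, VioC (enc A) c) ↔ Vio A

/-! ### A membership problem -/

/-- The relators `q a = q(a) (q@a)`. -/
def relsC {Q X : Type*} (A : Auto Q X) : Set (FreeGroup (Q ⊕ X)) :=
  Set.range fun p : Q × X => FreeGroup.of (Sum.inl p.1) * FreeGroup.of (Sum.inr p.2) *
    (FreeGroup.of (Sum.inr (A.out p.1 p.2)) * FreeGroup.of (Sum.inl (A.tr p.1 p.2)))⁻¹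

/-- `b⁻¹ a` is in the subgroup generated by the states. -/
def Mem {Q X : Type*} (A : Auto Q X) (a b : X) : Prop :=
  (PresentedGroup.of (rels := relsC A) (Sum.inr b))⁻¹ * PresentedGroup.of (Sum.inr a) ∈
    Subgroup.closure (Set.range fun q : Q => PresentedGroup.of (rels := relsC A) (Sum.inl q))

/-- MEM1.

Proof. Let `Λ = PresentedGroup (relsC A)`, `γ w` the value in `Λ` of a word `w` of signed states (`ev`), `c a` the
generator of the letter `a`.  By induction on `w`: `γ w * c a = c (w(a)) * γ (w@a)`.      (1)
(i) If `γ w = 1` then `A.val w = 1`: by (1) `(c (w(a)))⁻¹ * c a = γ (w@a)` is in the subgroup, so `w(a) = a` by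
hypothesis, and then `γ (w@a) = 1`; so `A.val w u = u` by induction on the length of `u` (`val_apply_cons`).
(ii) By `LN_iff` let `w(a) = a` and `A.val (w@a) = 1`; let `n = w.length`, and let `F` be the finite set of the elements
`γ v`, `v` a word of length `n` with `A.val v = 1`.  For such `v` we have `v(a) = a` and
`γ (v@a) = (c a)⁻¹ * γ v * c a`, and `v@a` is again of this kind; so conjugation by `(c a)⁻¹` maps the finite set `F`
injectively to itself, so it is surjective.  As `γ (w@a) ∈ F` there is `v` with
`(c a)⁻¹ * γ v * c a = γ (w@a) = (c a)⁻¹ * γ w * c a`, so `γ w = γ v`, `γ (w ++ iw v) = 1`, and by (i)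
`A.val w = A.val v = 1`. -/
def S_MEM1 : Prop := ∀ (m d : ℕ) (A : Auto (Fin m) (Fin d)),
  (∀ a b, a ≠ b → ¬ Mem A a b) → A.LN

/-- MEM2.

Proof. Let `a ≠ b`, `Mem A a b`.  Let `G = A.G`, with its action on letters and its sections `g@a`.
(i) `a` and `b` are in the same orbit: map `Λ` to the free group on the set of orbits by `q ↦ 1`, `a ↦` orbit of `a`
(the relators are respected, as `q(a)` is in the orbit of `a`); the image of `b⁻¹ a` must be trivial.
(ii) `Ω = G × ℕ` with the left action `L g (h, n) = (g * h, n)`.  For a letter `x` let `H = st x` and `φ : H → G` the section at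
`x`, injective by `LN`.  There is a bijection `s = s x` of `Ω` with `L g ∘ s = s ∘ L (φ g)` for `g ∈ H`, and such
that (★) for `n'` and `g₀, g₁ ∈ G` in different cosets `H g₀ ≠ H g₁` the points `s⁻¹ (g₀, n')`, `s⁻¹ (g₁, n')` have different
second coordinates.  Construction: let `r_j`, `j ∈ Fin D`, be representatives of the right cosets `H g` (there are
finitely many, as they correspond to the orbit of `x`), `ρ_i`, `i ∈ I`, representatives of the right cosets `(φ H) g`; `I` is
countable and not empty, so there is a bijection `η : ℕ ≃ ℕ × I`.  Put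
`s (φ h * ρ_i, D * k + j) = (h * r_j, η⁻¹ (k, i))` for `h ∈ H`, `i ∈ I`, `j < D`, `k : ℕ`.
(iii) For each orbit choose a representative `x` and for each letter `y` in the orbit `h_y ∈ G` with `h_y x = y`; put
`c y = L h_y ∘ s x ∘ (L (h_y@x))⁻¹`.  Then `L (A.perm q) ∘ c y = c (q(y)) ∘ L (A.perm (A.tr q y))` (put
`g = h_{q(y)}⁻¹ * q * h_y ∈ st x`; `g@x = (h_{q(y)}@x)⁻¹ * (q@y) * (h_y@x)`).  So we get a homomorphism `Λ → Perm Ω` with
`q ↦ L (A.perm q)`, `y ↦ c y`, and `Mem A a b` gives `(c b)⁻¹ * c a = L g` for some `g ∈ G`, i.e. with
`v = h_a⁻¹ * h_b` and some `u ∈ G`, `s x ∘ L u = L v ∘ s x`; here `v ∉ H`, because `h_b x = b ≠ a = h_a x`.  Let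
`ω = (s x)⁻¹ (1, 0)`; then `s x (L u ω) = (v, 0)`, so `s⁻¹ (1, 0)` and `s⁻¹ (v, 0)` have the same second coordinate,
contrary to (★) as `H v ≠ H`. -/
def S_MEM2 : Prop := ∀ (m d : ℕ) (A : Auto (Fin m) (Fin d)), A.LN →
  ∀ a b, a ≠ b → ¬ Mem A a b

end Pool.Agent.Helper85.LN
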